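import Pool.Agent.W545.Man.Bridge
import Pool.Agent.W749.D1.Surf
import Pool.Agent.W749.ST.Exist
import Pool.Agent.Y664.SK.Gap
set_option autoImplicit false
open MeasureTheory Pool.Agent.W545.Man.St
open scoped Manifold ContDiff ENNReal

/-!
# Uniform gaps between the conformal Steklov eigenvalues

For every compact connected smooth manifold `Ω` with nonempty boundary, of any dimension
`d + 1 ≥ 2`, and every conformal class on `Ω`, the powers `(d + 1) / 2` of the conformal Steklov
eigenvalues increase from `k` to `k + 1` at least by a positive constant which does not depend on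
`k`. In particular the conformal eigenvalues are strictly increasing, and the eigenvalue number `k`
is at least `(c k) ^ (2 / (d + 1))`, the order of the upper bound of Karpukhin and Metras.
The definitions are in `Pool/Agent/W545/Man/Stmt.lean`.
-/

namespace Pool.Agent.Results.MP_4838e0_gt.UniformGap

/-- There is `c > 0`, depending only on the conformal class, such that for all `k` the conformal
eigenvalue number `k` is finite, strictly smaller than the one number `k + 1`, and
`σ̄_k ^ ((d+1)/2) + c ≤ σ̄_{k+1} ^ ((d+1)/2)`; so `c k ≤ σ̄_k ^ ((d+1)/2)`. -/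
theorem result {d : ℕ} (hd : 1 ≤ d) {Ω : Type*} [TopologicalSpace Ω] [T2Space Ω] [CompactSpace Ω]
    [ConnectedSpace Ω] [ChartedSpace (EuclideanHalfSpace (d + 1)) Ω]
    [IsManifold (𝓡∂ (d + 1)) ∞ Ω] [MeasurableSpace Ω] [BorelSpace Ω]
    (hbd : ((𝓡∂ (d + 1)).boundary Ω).Nonempty) (G : Ω → E (d + 1) → Mat (d + 1))
    (hG : IsMetric G) :
    ∃ c : ℝ, 0 < c ∧ ∀ k : ℕ, confSup k G < ⊤ ∧ confSup k G < confSup (k + 1) G ∧
      confSup k G ^ (((d : ℝ) + 1) / 2) + ENNReal.ofReal c ≤ confSup (k + 1) G ^ (((d : ℝ) + 1) / 2) ∧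
      ENNReal.ofReal (c * k) ≤ confSup k G ^ (((d : ℝ) + 1) / 2) := by
  have hrel := Pool.Agent.W545.Man.ofG_rel G hG
  obtain ⟨c, hc, H⟩ : ∃ c : ℝ, 0 < c ∧ ∀ k,
      (Pool.Agent.W545.Man.confSup k (Pool.Agent.W545.Man.ofG G hG)).toReal ^ (((d : ℝ) + 1) / 2) + c ≤
        (Pool.Agent.W545.Man.confSup (k + 1) (Pool.Agent.W545.Man.ofG G hG)).toReal ^ (((d : ℝ) + 1) / 2) := by
    obtain ⟨q, hq⟩ := hbd
    rcases Nat.lt_or_ge 1 d with h2 | h1
    · exact Pool.Agent.Y664.SK.gap_high h2 _ hq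
    · obtain rfl : d = 1 := le_antisymm h1 hd
      obtain ⟨R0, C, hR0, hC, H⟩ :=
        Pool.Agent.W749.D1.surf_data (Pool.Agent.W545.Man.ofG G hG) hq
      exact Pool.Agent.Y664.SK.gap_surf _ hq hR0 hC H
  have hfin : ∀ k, Pool.Agent.W545.Man.confSup k (Pool.Agent.W545.Man.ofG G hG) ≠ ⊤ := fun k =>
    Pool.Agent.W749.ST.confSup_ne_top' hd _ k
  have he : (0 : ℝ) < ((d : ℝ) + 1) / 2 := by positivity
  have hE : ∀ k, confSup k G ^ (((d : ℝ) + 1) / 2) = ENNReal.ofReal
      ((Pool.Agent.W545.Man.confSup k (Pool.Agent.W545.Man.ofG G hG)).toReal ^ (((d : ℝ) + 1) / 2)) := by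
    intro k
    rw [Pool.Agent.W545.Man.rel_confSup hrel, ← ENNReal.ofReal_rpow_of_nonneg ENNReal.toReal_nonneg he.le,
      ENNReal.ofReal_toReal (hfin k)]
  refine ⟨c, hc, fun k => ⟨?_, ?_, ?_, ?_⟩⟩
  · rw [Pool.Agent.W545.Man.rel_confSup hrel]
    exact lt_top_iff_ne_top.2 (hfin k)
  · rw [Pool.Agent.W545.Man.rel_confSup hrel, Pool.Agent.W545.Man.rel_confSup hrel,
      ← ENNReal.toReal_lt_toReal (hfin k) (hfin (k + 1))]
    have h1 := H k
    by_contra h2
    rw [not_lt] at h2
    have h3 := Real.rpow_le_rpow (z := ((d : ℝ) + 1) / 2) ENNReal.toReal_nonneg h2 he.le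
    linarith
  · rw [hE, hE, ← ENNReal.ofReal_add (by positivity) hc.le]
    exact ENNReal.ofReal_le_ofReal (H k)
  · rw [hE]
    apply ENNReal.ofReal_le_ofReal
    induction k with
    | zero =>
      rw [Nat.cast_zero, mul_zero]
      positivity
    | succ n ih =>
      have := H n
      push_cast
      linarith

end Pool.Agent.Results.MP_4838e0_gt.UniformGap
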